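import Mathlib

set_option autoImplicit false

/-!
The number of `j`-th roots of a unit modulo `q` is `O(q^ε)`.
-/

namespace Pool.Agent.Helper26.Abc2

open Finset Real

section group

variable {G : Type*} [CommGroup G] [Fintype G] [DecidableEq G]

lemma card_roots_le_of_index (H : Subgroup G) [IsCyclic H] {j : ℕ} (hj : 0 < j) :
    (Finset.univ.filter (fun x : G => x ^ j = 1)).card ≤ j * H.index := by
  classical
  have h1 := Finset.card_le_mul_card_image (f := fun x : G => (x : G ⧸ H))
    (Finset.univ.filter (fun x : G => x ^ j = 1)) j (by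
      intro b hb
      rw [Finset.mem_image] at hb
      obtain ⟨x0, hx0, rfl⟩ := hb
      rw [Finset.mem_filter] at hx0
      have h2 := IsCyclic.card_pow_eq_one_le (α := H) hj
      refine le_trans ?_ h2
      apply Finset.card_le_card_of_surjOn (fun h : H => x0 * (h : G))
      intro y hy
      rw [Finset.mem_coe, Finset.mem_filter, Finset.mem_filter] at hy
      have hyH : x0⁻¹ * y ∈ H := QuotientGroup.eq.1 hy.2.symm
      refine ⟨⟨x0⁻¹ * y, hyH⟩, ?_, by simp⟩
      rw [Finset.mem_coe, Finset.mem_filter]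
      refine ⟨Finset.mem_univ _, ?_⟩
      apply Subtype.ext
      simp only [SubmonoidClass.mk_pow, OneMemClass.coe_one]
      rw [mul_pow, inv_pow, hx0.2, hy.1.2]; simp)
  refine h1.trans (Nat.mul_le_mul_left _ ?_)
  calc _ ≤ (Finset.univ : Finset (G ⧸ H)).card := Finset.card_le_card (Finset.subset_univ _)
    _ = H.index := by rw [Finset.card_univ, Subgroup.index_eq_card, Nat.card_eq_fintype_card]

end group

lemma units_roots {p : ℕ} (hp : p.Prime) (e : ℕ) [NeZero (p ^ e)] {j : ℕ} (hj : 0 < j) :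
    (Finset.univ.filter (fun x : (ZMod (p ^ e))ˣ => x ^ j = 1)).card ≤ 2 * j := by
  classical
  by_cases hc : IsCyclic (ZMod (p ^ e))ˣ
  · have := IsCyclic.card_pow_eq_one_le (α := (ZMod (p ^ e))ˣ) hj
    omega
  · have hp2 : p = 2 := by
      by_contra h
      exact hc (ZMod.isCyclic_units_of_prime_pow p hp h e)
    subst hp2
    have he : 2 < e := by
      by_contra h
      exact hc ((ZMod.isCyclic_units_two_pow_iff e).2 (by omega))
    obtain ⟨n, rfl⟩ : ∃ n, e = n + 2 := ⟨e - 2, by omega⟩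
    have h5 : IsUnit (5 : ZMod (2 ^ (n + 2))) := by
      have : IsUnit ((5 : ℕ) : ZMod (2 ^ (n + 2))) := by
        rw [ZMod.isUnit_iff_coprime]
        exact Nat.Coprime.pow_right _ (by norm_num)
      exact_mod_cast this
    have ho : orderOf h5.unit = 2 ^ n := by
      rw [← orderOf_units, IsUnit.unit_spec, ZMod.orderOf_five]
    have hidx : (Subgroup.zpowers h5.unit).index = 2 := by
      have h1 := (Subgroup.zpowers h5.unit).index_mul_card
      rw [Nat.card_zpowers, ho, Nat.card_eq_fintype_card, ZMod.card_units_eq_totient,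
        Nat.totient_prime_pow_succ Nat.prime_two] at h1
      have h2 : 0 < 2 ^ n := by positivity
      have h3 : (2 : ℕ) ^ (n + 1) * (2 - 1) = 2 * 2 ^ n := by rw [pow_succ]; ring
      rw [h3] at h1
      exact Nat.eq_of_mul_eq_mul_right h2 h1
    have h4 := card_roots_le_of_index (Subgroup.zpowers h5.unit) hj
    rw [hidx] at h4
    omega

/-- The set of `j`-th roots of `a` modulo `q` in `[0,q)`. -/
def rootSet (j q a : ℕ) : Finset ℕ := (Finset.range q).filter (fun x => x ^ j ≡ a [MOD q])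

lemma rootSet_prime_pow {p : ℕ} (hp : p.Prime) (e : ℕ) {j : ℕ} (hj : 0 < j) (a : ℕ)
    (ha : Nat.Coprime a (p ^ e)) : (rootSet j (p ^ e) a).card ≤ 2 * j := by
  classical
  have : NeZero (p ^ e) := ⟨(Nat.pow_pos hp.pos).ne'⟩
  rcases (rootSet j (p ^ e) a).eq_empty_or_nonempty with h0 | ⟨x0, hx0⟩
  · rw [h0]; simp
  refine le_trans ?_ (units_roots hp e hj)
  -- members of the root set are units
  have hunit : ∀ x ∈ rootSet j (p ^ e) a, IsUnit ((x : ℕ) : ZMod (p ^ e)) := by
    intro x hx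
    rw [rootSet, Finset.mem_filter] at hx
    have h1 : ((x : ZMod (p ^ e)) ^ j) = (a : ZMod (p ^ e)) := by
      have := (ZMod.natCast_eq_natCast_iff _ _ _).2 hx.2
      push_cast at this
      exact this
    have h2 : IsUnit ((x : ZMod (p ^ e)) ^ j) := by
      rw [h1, ZMod.isUnit_iff_coprime]; exact ha
    exact (isUnit_pow_iff hj.ne').1 h2
  have hpow : ∀ x ∈ rootSet j (p ^ e) a, (x : ZMod (p ^ e)) ^ j = (a : ZMod (p ^ e)) := by
    intro x hx
    rw [rootSet, Finset.mem_filter] at hx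
    have := (ZMod.natCast_eq_natCast_iff _ _ _).2 hx.2
    push_cast at this
    exact this
  have hu0 := hunit x0 hx0
  set u0 := hu0.unit with hu0def
  apply Finset.card_le_card_of_surjOn
    (fun g : (ZMod (p ^ e))ˣ => ((u0 * g : (ZMod (p ^ e))ˣ) : ZMod (p ^ e)).val)
  intro x hx
  have hx' := Finset.mem_coe.1 hx
  have hux := hunit x hx'
  refine ⟨u0⁻¹ * hux.unit, ?_, ?_⟩
  · rw [Finset.mem_coe, Finset.mem_filter]
    refine ⟨Finset.mem_univ _, ?_⟩
    apply Units.ext
    rw [mul_pow, inv_pow]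
    have h1 : hux.unit ^ j = u0 ^ j := by
      apply Units.ext
      rw [Units.val_pow_eq_pow_val, Units.val_pow_eq_pow_val, hu0def, IsUnit.unit_spec,
        IsUnit.unit_spec, hpow x hx', hpow x0 hx0]
    rw [h1]; simp
  · simp only [mul_inv_cancel_left]
    rw [IsUnit.unit_spec]
    rw [rootSet, Finset.mem_filter, Finset.mem_range] at hx'
    exact ZMod.val_cast_of_lt hx'.1

lemma rootSet_mul {m n : ℕ} (hm : 0 < m) (hn : 0 < n) (hmn : Nat.Coprime m n) (j a : ℕ) :
    (rootSet j (m * n) a).card ≤ (rootSet j m a).card * (rootSet j n a).card := by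
  classical
  rw [← Finset.card_product]
  apply Finset.card_le_card_of_injOn (fun x => (x % m, x % n))
  · intro x hx
    rw [Finset.mem_coe, rootSet, Finset.mem_filter] at hx
    rw [Finset.mem_coe, Finset.mem_product, rootSet, rootSet, Finset.mem_filter,
      Finset.mem_filter, Finset.mem_range, Finset.mem_range]
    refine ⟨⟨Nat.mod_lt _ hm, ?_⟩, ⟨Nat.mod_lt _ hn, ?_⟩⟩
    · exact ((Nat.mod_modEq x m).pow j).trans (hx.2.of_mul_right n)
    · exact ((Nat.mod_modEq x n).pow j).trans (hx.2.of_mul_left m)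
  · intro x hx y hy hxy
    rw [Finset.mem_coe, rootSet, Finset.mem_filter, Finset.mem_range] at hx hy
    simp only [Prod.mk.injEq] at hxy
    have h1 : x ≡ y [MOD m * n] := (Nat.modEq_and_modEq_iff_modEq_mul hmn).1 ⟨hxy.1, hxy.2⟩
    have h2 : x % (m * n) = y % (m * n) := h1
    rwa [Nat.mod_eq_of_lt hx.1, Nat.mod_eq_of_lt hy.1] at h2

lemma rootSet_le_pow {j : ℕ} (hj : 0 < j) (q : ℕ) : 0 < q → ∀ a : ℕ, Nat.Coprime a q →
    (rootSet j q a).card ≤ (2 * j) ^ q.primeFactors.card := by
  classical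
  induction q using Nat.recOnPosPrimePosCoprime with
  | prime_pow p n hp hn =>
    intro _ a ha
    rw [Nat.primeFactors_prime_pow hn.ne' hp, Finset.card_singleton, pow_one]
    exact rootSet_prime_pow hp n hj a ha
  | zero => intro h; omega
  | one =>
    intro _ a _
    have : (rootSet j 1 a).card ≤ (Finset.range 1).card := Finset.card_filter_le _ _
    simpa using this
  | coprime m n hm hn hmn ihm ihn =>
    intro _ a ha
    have h1 := rootSet_mul (by omega) (by omega) hmn j a
    have h2 := ihm (by omega) a (Nat.Coprime.coprime_mul_right_right ha)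
    have h3 := ihn (by omega) a (Nat.Coprime.coprime_mul_left_right ha)
    rw [hmn.primeFactors_mul, Finset.card_union_of_disjoint hmn.disjoint_primeFactors, pow_add]
    exact h1.trans (Nat.mul_le_mul h2 h3)

lemma pow_omega_le {ε : ℝ} (hε : 0 < ε) {c : ℝ} (hc : 1 ≤ c) :
    ∃ C : ℝ, 0 < C ∧ ∀ q : ℕ, 0 < q → c ^ q.primeFactors.card ≤ C * (q : ℝ) ^ ε := by
  classical
  obtain ⟨N, hN⟩ := exists_nat_gt (c ^ (1 / ε))
  refine ⟨c ^ N, by positivity, ?_⟩
  intro q hq
  have h1 : c ^ q.primeFactors.card = ∏ p ∈ q.primeFactors, c := by rw [Finset.prod_const]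
  have h2 : ∏ p ∈ q.primeFactors, c ≤
      ∏ p ∈ q.primeFactors, ((if p < N then c else 1) * (p : ℝ) ^ ε) := by
    apply Finset.prod_le_prod
    · intro p _; linarith
    · intro p hp
      have hpp := Nat.prime_of_mem_primeFactors hp
      have hp1 : (1 : ℝ) ≤ p := by exact_mod_cast hpp.one_lt.le
      have hpe : (1 : ℝ) ≤ (p : ℝ) ^ ε := Real.one_le_rpow hp1 hε.le
      split_ifs with hlt
      · nlinarith
      · push Not at hlt
        rw [one_mul]
        have h5 : c ^ (1 / ε) ≤ p := by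
          have : (N : ℝ) ≤ p := by exact_mod_cast hlt
          linarith
        calc c = (c ^ (1 / ε)) ^ ε := by
              rw [← Real.rpow_mul (by linarith), one_div_mul_cancel hε.ne', Real.rpow_one]
          _ ≤ _ := Real.rpow_le_rpow (by positivity) h5 hε.le
  have h3 : ∏ p ∈ q.primeFactors, (if p < N then c else 1) ≤ c ^ N := by
    rw [Finset.prod_ite, Finset.prod_const, Finset.prod_const_one, mul_one]
    apply pow_le_pow_right₀ hc
    calc (q.primeFactors.filter (fun p => p < N)).card ≤ (Finset.range N).card := by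
          apply Finset.card_le_card
          intro p hp
          rw [Finset.mem_filter] at hp
          exact Finset.mem_range.2 hp.2
      _ = N := Finset.card_range N
  have h4 : ∏ p ∈ q.primeFactors, (p : ℝ) ^ ε ≤ (q : ℝ) ^ ε := by
    rw [Real.finsetProd_rpow _ _ (fun p _ => by positivity)]
    apply Real.rpow_le_rpow (by positivity) _ hε.le
    have h5 : (∏ p ∈ q.primeFactors, p) ≤ q := Nat.le_of_dvd hq (Nat.prod_primeFactors_dvd q)
    have h6 : ((∏ p ∈ q.primeFactors, p : ℕ) : ℝ) ≤ (q : ℝ) := Nat.cast_le.2 h5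
    rw [Nat.cast_prod] at h6
    exact h6
  rw [h1]
  refine h2.trans ?_
  rw [Finset.prod_mul_distrib]
  apply mul_le_mul h3 h4 _ (by positivity)
  apply Finset.prod_nonneg
  intro p _; positivity

/-- The number of `j`-th roots modulo `q` of a unit is `O(q^ε)`. -/
theorem card_roots {j : ℕ} (hj : 0 < j) {ε : ℝ} (hε : 0 < ε) :
    ∃ C : ℝ, 0 < C ∧ ∀ q a : ℕ, 0 < q → Nat.Coprime a q →
      (((Finset.range q).filter (fun x => x ^ j ≡ a [MOD q])).card : ℝ) ≤ C * (q : ℝ) ^ ε := by
  have hj1 : (1 : ℝ) ≤ ((2 * j : ℕ) : ℝ) := by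
    have : 1 ≤ 2 * j := by omega
    exact_mod_cast this
  obtain ⟨C, hC0, hC⟩ := pow_omega_le hε hj1
  refine ⟨C, hC0, ?_⟩
  intro q a hq ha
  refine le_trans ?_ (hC q hq)
  have := rootSet_le_pow hj q hq a ha
  rw [rootSet] at this
  exact_mod_cast this

/-- Version with integers: the residues `x` modulo `q` with `x ^ j ≡ a` are `O(q^ε)`
(`a` an integer coprime to `q`). -/
theorem card_roots_int {j : ℕ} (hj : 0 < j) {ε : ℝ} (hε : 0 < ε) :
    ∃ C : ℝ, 0 < C ∧ ∀ (q : ℕ) (a : ℤ), 0 < q → IsCoprime a (q : ℤ) →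
      (((Finset.range q).filter (fun x : ℕ => (q : ℤ) ∣ (x : ℤ) ^ j - a)).card : ℝ) ≤
        C * (q : ℝ) ^ ε := by
  obtain ⟨C, hC0, hC⟩ := card_roots hj hε
  refine ⟨C, hC0, ?_⟩
  intro q a hq ha
  have hq' : (0 : ℤ) < q := by exact_mod_cast hq
  set b : ℕ := (a % (q : ℤ)).toNat with hb
  have hbz : (b : ℤ) = a % (q : ℤ) := Int.toNat_of_nonneg (Int.emod_nonneg _ hq'.ne')
  have hbq : Nat.Coprime b q := by
    rw [← Nat.isCoprime_iff_coprime, hbz]
    have h2 : a % (q : ℤ) = a + q * (-(a / q)) := by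
      have := Int.emod_add_mul_ediv a (q : ℤ)
      linarith
    rw [h2]
    exact ha.add_mul_left_left _
  refine le_trans ?_ (hC q b hq hbq)
  have : (Finset.range q).filter (fun x : ℕ => (q : ℤ) ∣ (x : ℤ) ^ j - a) ⊆
      (Finset.range q).filter (fun x => x ^ j ≡ b [MOD q]) := by
    intro x hx
    rw [Finset.mem_filter] at hx ⊢
    refine ⟨hx.1, ?_⟩
    rw [← Int.natCast_modEq_iff, Int.modEq_iff_dvd]
    push_cast
    rw [hbz]
    have h1 : (q : ℤ) ∣ a % q - a := by
      have := Int.emod_add_mul_ediv a (q : ℤ)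
      exact ⟨-(a / q), by linarith⟩
    have h2 := hx.2
    have h3 : a % (q : ℤ) - (x : ℤ) ^ j = (a % q - a) - ((x : ℤ) ^ j - a) := by ring
    rw [h3]
    exact dvd_sub h1 h2
  exact_mod_cast Finset.card_le_card this

end Pool.Agent.Helper26.Abc2
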