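import Mathlib

set_option autoImplicit false

/-!
The number of `d ≤ X` with given radical is `O(X^ε)` (Rankin's trick).
-/

namespace Pool.Agent.Helper26.Abc2

open Finset Real

lemma geom_le {t : ℝ} (ht0 : 0 < t) (ht1 : t < 1) (K : ℕ) :
    ∑ k ∈ Finset.Icc 1 K, t ^ k ≤ t / (1 - t) := by
  have h1t : 1 - t ≠ 0 := by linarith
  have h : ∀ K : ℕ, ∑ k ∈ Finset.Icc 1 K, t ^ k = t * (1 - t ^ K) / (1 - t) := by
    intro K
    induction K with
    | zero => simp
    | succ n ih =>
      rw [Finset.sum_Icc_succ_top (by omega), ih]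
      field_simp
      ring
  rw [h]
  apply div_le_div_of_nonneg_right _ (by linarith)
  have : 0 ≤ t ^ K := by positivity
  nlinarith

lemma sum_le_prod (P : Finset ℕ) (w : ℕ → ℝ) (hw0 : ∀ p ∈ P, 0 < w p)
    (hw1 : ∀ p ∈ P, w p < 1) (S : Finset ℕ) (hS : ∀ d ∈ S, d ≠ 0 ∧ d.primeFactors = P) :
    ∑ d ∈ S, ∏ p ∈ P, w p ^ (d.factorization p) ≤ ∏ p ∈ P, (w p / (1 - w p)) := by
  classical
  obtain ⟨K, hK⟩ : ∃ K : ℕ, ∀ d ∈ S, ∀ p ∈ P, d.factorization p ≤ K :=
    ⟨S.sup id, fun d hd p _ =>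
      ((Nat.factorization_lt p (hS d hd).1).le).trans (Finset.le_sup (f := id) hd)⟩
  set g : ℕ → (∀ p ∈ P, ℕ) := fun d p _ => d.factorization p with hg
  have hinj : Set.InjOn g S := by
    intro d hd e he hde
    apply Nat.eq_of_factorization_eq (hS d hd).1 (hS e he).1
    intro p
    by_cases hp : p ∈ P
    · exact congrFun (congrFun hde p) hp
    · have h1 : p ∉ d.primeFactors := by rw [(hS d hd).2]; exact hp
      have h2 : p ∉ e.primeFactors := by rw [(hS e he).2]; exact hp
      rw [← Nat.support_factorization, Finsupp.notMem_support_iff] at h1 h2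
      rw [h1, h2]
  calc ∑ d ∈ S, ∏ p ∈ P, w p ^ (d.factorization p)
      = ∑ d ∈ S, ∏ x ∈ P.attach, w x.1 ^ (g d x.1 x.2) := by
        apply Finset.sum_congr rfl
        intro d _
        rw [← Finset.prod_attach]
    _ = ∑ f ∈ S.image g, ∏ x ∈ P.attach, w x.1 ^ (f x.1 x.2) := by
        rw [Finset.sum_image hinj]
    _ ≤ ∑ f ∈ P.pi (fun _ => Finset.Icc 1 K), ∏ x ∈ P.attach, w x.1 ^ (f x.1 x.2) := by
        apply Finset.sum_le_sum_of_subset_of_nonneg
        · intro f hf
          rw [Finset.mem_image] at hf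
          obtain ⟨d, hd, rfl⟩ := hf
          rw [Finset.mem_pi]
          intro p hp
          rw [Finset.mem_Icc]
          refine ⟨?_, hK d hd p hp⟩
          have h1 : p ∈ d.primeFactors := by rw [(hS d hd).2]; exact hp
          rw [← Nat.support_factorization, Finsupp.mem_support_iff] at h1
          exact Nat.one_le_iff_ne_zero.2 h1
        · intro f _ _
          apply Finset.prod_nonneg
          intro x _
          exact pow_nonneg (hw0 x.1 x.2).le _
    _ = ∏ p ∈ P, ∑ k ∈ Finset.Icc 1 K, w p ^ k := by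
        rw [Finset.prod_sum]
    _ ≤ _ := by
        apply Finset.prod_le_prod
        · intro p hp
          apply Finset.sum_nonneg
          intro k _
          exact pow_nonneg (hw0 p hp).le _
        · intro p hp
          exact geom_le (hw0 p hp) (hw1 p hp) K

/-- The number of `d ≤ X` with radical `r` is at most `C X^ε`. -/
theorem card_rad_eq {ε : ℝ} (hε : 0 < ε) :
    ∃ C : ℝ, 0 < C ∧ ∀ X r : ℕ,
      (((Finset.Icc 1 X).filter (fun d => ∏ p ∈ d.primeFactors, p = r)).card : ℝ) ≤
        C * (X : ℝ) ^ ε := by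
  classical
  obtain ⟨N, hN⟩ := exists_nat_gt ((2 : ℝ) ^ (1 / ε))
  set B : ℝ := 1 / ((2 : ℝ) ^ ε - 1) with hB
  have h2ε : (1 : ℝ) < (2 : ℝ) ^ ε := Real.one_lt_rpow (by norm_num) hε
  set M : ℝ := max 1 B with hM
  have hM1 : 1 ≤ M := le_max_left _ _
  refine ⟨M ^ N, by positivity, ?_⟩
  intro X r
  set S := (Finset.Icc 1 X).filter (fun d => ∏ p ∈ d.primeFactors, p = r) with hSdef
  rcases S.eq_empty_or_nonempty with hemp | ⟨d0, hd0⟩
  · rw [hemp]; simp; positivity
  set P := r.primeFactors with hP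
  have hSP : ∀ d ∈ S, d ≠ 0 ∧ d.primeFactors = P := by
    intro d hd
    rw [hSdef, Finset.mem_filter, Finset.mem_Icc] at hd
    refine ⟨by omega, ?_⟩
    rw [hP, ← hd.2, Nat.primeFactors_prod (fun p hp => Nat.prime_of_mem_primeFactors hp)]
  have hX : 1 ≤ X := by
    rw [hSdef, Finset.mem_filter, Finset.mem_Icc] at hd0; omega
  have hXpos : (0 : ℝ) < X := by exact_mod_cast hX
  have hPprime : ∀ p ∈ P, p.Prime := fun p hp => Nat.prime_of_mem_primeFactors hp
  set w : ℕ → ℝ := fun p => (p : ℝ) ^ (-ε) with hw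
  have hw0 : ∀ p ∈ P, 0 < w p := by
    intro p hp
    have : (0 : ℝ) < p := by exact_mod_cast (hPprime p hp).pos
    exact Real.rpow_pos_of_pos this _
  have hw1 : ∀ p ∈ P, w p < 1 := by
    intro p hp
    have : (1 : ℝ) < p := by exact_mod_cast (hPprime p hp).one_lt
    exact Real.rpow_lt_one_of_one_lt_of_neg this (by linarith)
  have hmain := sum_le_prod P w hw0 hw1 S hSP
  have hterm : ∀ d ∈ S, (X : ℝ) ^ (-ε) ≤ ∏ p ∈ P, w p ^ (d.factorization p) := by
    intro d hd
    have hd' := hSP d hd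
    have hdX : d ≤ X := by
      rw [hSdef, Finset.mem_filter, Finset.mem_Icc] at hd; exact hd.1.2
    have hdpos : (0 : ℝ) < d := by
      have := Nat.pos_of_ne_zero hd'.1
      exact_mod_cast this
    have h1 : ∏ p ∈ P, w p ^ (d.factorization p) = (d : ℝ) ^ (-ε) := by
      have h2 : (d : ℝ) = ∏ p ∈ P, (p : ℝ) ^ (d.factorization p) := by
        have h := Nat.prod_factorization_pow_eq_self hd'.1
        rw [Finsupp.prod, Nat.support_factorization, hd'.2] at h
        have h3 : ((∏ p ∈ P, p ^ (d.factorization p) : ℕ) : ℝ) = (d : ℝ) := by rw [h]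
        rw [← h3]; push_cast; rfl
      rw [h2, ← Real.finsetProd_rpow _ _ (fun p _ => by positivity)]
      apply Finset.prod_congr rfl
      intro p _
      simp only [hw]
      rw [← Real.rpow_natCast, ← Real.rpow_mul (by positivity), ← Real.rpow_natCast,
        ← Real.rpow_mul (by positivity), mul_comm]
    rw [h1]
    apply Real.rpow_le_rpow_of_nonpos hdpos (by exact_mod_cast hdX) (by linarith)
  have h1 : (S.card : ℝ) * (X : ℝ) ^ (-ε) ≤ ∏ p ∈ P, (w p / (1 - w p)) := by
    calc (S.card : ℝ) * (X : ℝ) ^ (-ε) = ∑ d ∈ S, (X : ℝ) ^ (-ε) := by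
          rw [Finset.sum_const, nsmul_eq_mul]
      _ ≤ ∑ d ∈ S, ∏ p ∈ P, w p ^ (d.factorization p) := Finset.sum_le_sum hterm
      _ ≤ _ := hmain
  have h2 : ∏ p ∈ P, (w p / (1 - w p)) ≤ ∏ p ∈ P, (if p < N then M else 1) := by
    apply Finset.prod_le_prod
    · intro p hp
      exact div_nonneg (hw0 p hp).le (by linarith [hw1 p hp])
    · intro p hp
      have hpp := hPprime p hp
      have hp0 : (0 : ℝ) < p := by exact_mod_cast hpp.pos
      have hp2 : (2 : ℝ) ≤ p := by exact_mod_cast hpp.two_le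
      have hpe : (2 : ℝ) ^ ε ≤ (p : ℝ) ^ ε := Real.rpow_le_rpow (by norm_num) hp2 hε.le
      have heq : w p / (1 - w p) = 1 / ((p : ℝ) ^ ε - 1) := by
        simp only [hw]
        rw [Real.rpow_neg hp0.le]
        have : (p : ℝ) ^ ε ≠ 0 := (Real.rpow_pos_of_pos hp0 _).ne'
        have h3 : (p : ℝ) ^ ε - 1 ≠ 0 := by linarith
        field_simp
      rw [heq]
      split_ifs with hlt
      · refine le_trans ?_ (le_max_right _ _)
        rw [hB]
        apply one_div_le_one_div_of_le (by linarith) (by linarith)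
      · push Not at hlt
        have h4 : (2 : ℝ) ≤ (p : ℝ) ^ ε := by
          have h5 : (2 : ℝ) ^ (1 / ε) ≤ p := by
            have : (N : ℝ) ≤ p := by exact_mod_cast hlt
            linarith
          calc (2 : ℝ) = ((2 : ℝ) ^ (1 / ε)) ^ ε := by
                rw [← Real.rpow_mul (by norm_num), one_div_mul_cancel hε.ne', Real.rpow_one]
            _ ≤ _ := Real.rpow_le_rpow (by positivity) h5 hε.le
        rw [div_le_one (by linarith)]
        linarith
  have h3 : ∏ p ∈ P, (if p < N then M else 1) ≤ M ^ N := by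
    rw [Finset.prod_ite, Finset.prod_const, Finset.prod_const_one, mul_one]
    apply pow_le_pow_right₀ hM1
    calc (P.filter (fun p => p < N)).card ≤ (Finset.range N).card := by
          apply Finset.card_le_card
          intro p hp
          rw [Finset.mem_filter] at hp
          exact Finset.mem_range.2 hp.2
      _ = N := Finset.card_range N
  have h4 : (S.card : ℝ) * (X : ℝ) ^ (-ε) ≤ M ^ N := h1.trans (h2.trans h3)
  rw [Real.rpow_neg hXpos.le] at h4
  have hXe : 0 < (X : ℝ) ^ ε := Real.rpow_pos_of_pos hXpos _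
  calc (S.card : ℝ) = (S.card : ℝ) * ((X : ℝ) ^ ε)⁻¹ * (X : ℝ) ^ ε := by
        field_simp
    _ ≤ M ^ N * (X : ℝ) ^ ε := mul_le_mul_of_nonneg_right h4 hXe.le

end Pool.Agent.Helper26.Abc2
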